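import Mathlib
import Pool.Agent.AntipodeLib.Final

/-!
# An affine Hopf algebra whose antipode is not bijective

Overview of the construction (all of it is carried out in `Pool.Agent.AntipodeLib`).

Let `I` be a set with twelve elements and let `f` be a trilinear form on the space `V` with basis
`I`, all of whose coefficients `f a b c` are `0` or `1` (`Tensor.lean`).  The Hopf algebra `H` is
generated by the coefficients `X i r j` (`i : ℕ`, `r j : I`) of comodules `V_0 = V, V_1, V_2, ...`
subject to the relations saying that `V_{i+1}` is a left dual of `V_i`
(`cap` and `cup` in `System.lean`) and that `f : V ⊗ V ⊗ V → k` is a morphism of comodules,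
together with the rotated forms of the latter relation that follow from duality (`rr` and `cc`).
The antipode sends `X i r j` to `X (i + 1) j r`.

* `f` is nondegenerate in its third variable, so `V_{i+1}` is a quotient of `V_i ⊗ V_i` for even `i`
  and a subcomodule for odd `i`; hence `H` is generated by the 144 elements `X 0 r j`.
* A diamond lemma (`Diamond.lean`), applied to a confluent rewriting system with infinitely many
  rules (`Confluence.lean`, `Natural.lean`, `Conf.lean`), gives a linear basis of `H`.
* The element `∑ b c, f 0 b c • X 0 b 0 * X 0 c 0` is nonzero, because it is a sum of distinct
  irreducible words, but the antipode maps it to zero (`Final.lean`).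
-/

set_option autoImplicit false

namespace Pool.Agent.Results.MP_8f6377_al.AffineAntipode

universe u

/-- **Main result.** Over every field `k` (in particular over the complex numbers) there is a Hopf
algebra `H` that is finitely generated as a `k`-algebra and whose antipode is not injective, and
hence not bijective. -/
theorem result (k : Type u) [Field k] :
    ∃ (H : Type u) (_ : Ring H) (_ : HopfAlgebra k H),
      Algebra.FiniteType k H ∧
      ¬ Function.Injective (HopfAlgebra.antipode k (A := H)) ∧
      ¬ Function.Bijective (HopfAlgebra.antipode k (A := H)) := by
  obtain ⟨h1, h2⟩ := Pool.Agent.AntipodeLib.main k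
  exact ⟨Pool.Agent.AntipodeLib.HH k, inferInstance, inferInstance, h1, h2, fun h => h2 h.1⟩

end Pool.Agent.Results.MP_8f6377_al.AffineAntipode
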